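import Pool.Agent.Q140.HYE.Main

namespace Pool.Agent.Q140.HYE

open Set Filter Topology
open scoped Manifold ContDiff

/-- `τ` is a hyperelliptic involution of `R` -/
def IsHyp {R : Type} [TopologicalSpace R] [ChartedSpace ℂ R] (τ : R → R) : Prop :=
  ∃ (B : Set (OnePoint ℂ)) (p : R → OnePoint ℂ), Cover B p τ

/-- `q` is an isolated point of `A` -/
def Isolated (A : Set (OnePoint ℂ)) (q : OnePoint ℂ) : Prop :=
  q ∈ A ∧ ∃ N : Set (OnePoint ℂ), IsOpen N ∧ q ∈ N ∧ N ∩ A ⊆ {q}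

theorem exists_isolated {B : Set (OnePoint ℂ)} (hB : B.Infinite) (hf : (lim B).Finite) :
    ∃ q, Isolated (lim B) q := by
  obtain ⟨q, hq⟩ := hB.exists_accPt_principal
  refine ⟨q, hq, (lim B \ {q})ᶜ, (hf.subset diff_subset).isClosed.isOpen_compl, ?_, ?_⟩
  · simp
  · rintro x ⟨h1, h2⟩
    by_contra hx
    exact h1 ⟨h2, hx⟩

end Pool.Agent.Q140.HYE
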