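import Pool.Agent.Q140.HYE.Stmts

namespace Pool.Agent.Q140.HYE

open Set Filter Topology
open scoped Manifold ContDiff

theorem rc_inj {c : ℂ} {w w' : OnePoint ℂ} (h : w ≠ (c : OnePoint ℂ)) (h' : w' ≠ (c : OnePoint ℂ))
    (he : rc c w = rc c w') : w = w' := by
  induction w using OnePoint.rec with
  | infty =>
    induction w' using OnePoint.rec with
    | infty => rfl
    | coe z' =>
      exfalso
      simp [rc] at he
      apply h'
      rw [sub_eq_zero.1 he.symm]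
  | coe z =>
    induction w' using OnePoint.rec with
    | infty =>
      exfalso
      simp [rc] at he
      apply h
      rw [sub_eq_zero.1 he]
    | coe z' =>
      simp [rc] at he
      rw [he]

theorem coe_aff {w : OnePoint ℂ} (h : w ≠ OnePoint.infty) : ((aff w : ℂ) : OnePoint ℂ) = w := by
  induction w using OnePoint.rec with
  | infty => exact absurd rfl h
  | coe z => simp [aff]

theorem nhdsNE_coe_eq (z : ℂ) : 𝓝[≠] (z : OnePoint ℂ) = map (fun y : ℂ => (y : OnePoint ℂ)) (𝓝[≠] z) := by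
  have h := OnePoint.nhdsWithin_coe ({(z : OnePoint ℂ)}ᶜ) z
  rw [h]
  congr 2
  ext y
  simp

section

variable {R : Type} [TopologicalSpace R] [T2Space R] [ConnectedSpace R] [ChartedSpace ℂ R]
  [IsManifold 𝓘(ℂ) ω R]

/-- the descended function -/
noncomputable def HH (p : R → OnePoint ℂ) (g : R → ℂ) (w : OnePoint ℂ) : ℂ :=
  open Classical in if h : ∃ x, p x = w then g h.choose else 0

theorem HH_apply {B : Set (OnePoint ℂ)} {p : R → OnePoint ℂ} {τ : R → R} (hc : Cover B p τ) {g : R → ℂ}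
    (hg : ∀ x, g (τ x) = g x) (x : R) : HH p g (p x) = g x := by
  have h : ∃ y, p y = p x := ⟨x, rfl⟩
  unfold HH
  rw [dif_pos h]
  have h1 : h.choose ∈ p ⁻¹' {p x} := h.choose_spec
  rw [hc.fibre x] at h1
  rcases h1 with h1 | h1
  · rw [h1]
  · rw [h1]; exact hg x

/-- the local part: on an open set `W` off `lim B₁` over which `1/(p₂ - c)` is bounded and holomorphic, the
descended function is holomorphic in the affine coordinate. -/
theorem descend (hLocal : TaskLocal) (hRc : TaskRc) (hComp : TaskComp) (hCont : TaskCont) (hRemov : TaskRemov)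
    (hDisc : TaskDisc)
    {B₁ B₂ : Set (OnePoint ℂ)} {p₁ p₂ : R → OnePoint ℂ} {τ₁ τ₂ : R → R} (h1 : Cover B₁ p₁ τ₁)
    (h2 : Cover B₂ p₂ τ₂) {c : ℂ} {N : Set (OnePoint ℂ)}
    (hN : ∀ x, p₁ x ∈ N → p₂ x ≠ (c : OnePoint ℂ)) {Ω : Set ℂ} (hΩ : IsOpen Ω)
    (hΩN : ∀ z ∈ Ω, (z : OnePoint ℂ) ∈ N ∧ (z : OnePoint ℂ) ∉ lim B₁) :
    DifferentiableOn ℂ (fun z : ℂ => HH p₁ (fun x => (rc c (p₂ x) - rc c (p₂ (τ₁ x))) ^ 2) (z : OnePoint ℂ)) Ω := by
  set g : R → ℂ := fun x => (rc c (p₂ x) - rc c (p₂ (τ₁ x))) ^ 2 with hg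
  have hgτ : ∀ x, g (τ₁ x) = g x := by
    intro x; simp only [hg]; rw [h1.invol]; ring
  have hτp : ∀ x, p₁ (τ₁ x) = p₁ x := by
    intro x
    have : τ₁ x ∈ p₁ ⁻¹' {p₁ x} := by rw [h1.fibre x]; simp
    exact this
  have hgd : ∀ x, p₁ x ∈ N → MDifferentiableAt 𝓘(ℂ) 𝓘(ℂ) g x := by
    intro x hx
    have e1 := hRc R p₂ c x h2.hol (hN x hx)
    have e2 := hRc R (fun x => p₂ (τ₁ x)) c x (hComp R p₂ τ₁ h2.hol h1.aut)
      (hN (τ₁ x) (by rw [hτp]; exact hx))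
    simp only [hg, pow_two]
    exact (e1.sub e2).mul (e1.sub e2)
  have hopen : IsOpen ((fun z : ℂ => (z : OnePoint ℂ)) '' Ω) := OnePoint.isOpenEmbedding_coe.isOpenMap _ hΩ
  have hcontH : ∀ z ∈ Ω, ContinuousAt (HH p₁ g) (z : OnePoint ℂ) := by
    intro z hz
    refine hCont R p₁ (lim B₁)ᶜ ((fun z : ℂ => (z : OnePoint ℂ)) '' Ω) g (HH p₁ g) h1.hol.cont h1.image h1.proper
      hopen ?_ ?_ ?_ _ ⟨z, hz, rfl⟩
    · rintro _ ⟨y, hy, rfl⟩; exact (hΩN y hy).2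
    · rintro x ⟨y, hy, hxy⟩
      have : p₁ x ∈ N := by rw [← hxy]; exact (hΩN y hy).1
      exact (hgd x this).continuousAt.continuousWithinAt
    · intro x _; exact HH_apply h1 hgτ x
  refine hRemov _ Ω {z : ℂ | (z : OnePoint ℂ) ∈ B₁} hΩ (fun z hz => by
    have := hDisc B₁ z (hΩN z hz).2
    rw [nhdsNE_coe_eq, eventually_map] at this
    exact this) ?_ ?_
  · intro z hz
    exact ((hcontH z hz).comp (OnePoint.continuous_coe.continuousAt)).continuousWithinAt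
  · intro z hz hzB
    have hzV : (z : OnePoint ℂ) ∈ range p₁ := by rw [h1.image]; exact (hΩN z hz).2
    obtain ⟨x, hx⟩ := hzV
    have hxinf : p₁ x ≠ OnePoint.infty := by rw [hx]; exact OnePoint.coe_ne_infty z
    have hcrit : ¬ Crit p₁ x := by
      rw [← h1.crit, hx]; exact hzB
    have hder : mfderiv 𝓘(ℂ) 𝓘(ℂ) (fun y => aff (p₁ y)) x ≠ 0 := fun h => hcrit (Or.inl ⟨hxinf, h⟩)
    have hev : ∀ᶠ y in 𝓝 x, p₁ y ≠ OnePoint.infty :=
      h1.hol.cont.continuousAt.eventually_ne hxinf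
    have := hLocal R (fun y => aff (p₁ y)) g (fun z : ℂ => HH p₁ g (z : OnePoint ℂ)) x
      (hev.mono fun y hy => h1.hol.fin y hy) hder (hgd x (by rw [hx]; exact (hΩN z hz).1))
      (hev.mono fun y hy => by simp only [coe_aff hy]; exact HH_apply h1 hgτ y)
    have hz' : aff (p₁ x) = z := by rw [hx]; simp [aff]
    rw [hz'] at this
    exact this

theorem main (hLocal : TaskLocal) (hRc : TaskRc) (hIdent : TaskIdent) (hComp : TaskComp) (hCont : TaskCont)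
    (hRemov : TaskRemov) (hPunct : TaskPunct) (hPunctInf : TaskPunctInf) (hBdd : TaskBdd) (hNhd : TaskNhd)
    (hDense : TaskDense) (hDisc : TaskDisc)
    {B₁ B₂ : Set (OnePoint ℂ)} {p₁ p₂ : R → OnePoint ℂ} {τ₁ τ₂ : R → R} (h1 : Cover B₁ p₁ τ₁)
    (h2 : Cover B₂ p₂ τ₂) {q : OnePoint ℂ} (hq : q ∈ lim B₁)
    (hiso : ∃ N : Set (OnePoint ℂ), IsOpen N ∧ q ∈ N ∧ N ∩ lim B₁ ⊆ {q}) : τ₁ = τ₂ := by
  obtain ⟨c, M, N, hNo, hqN, hN⟩ := hBdd R B₁ B₂ p₁ p₂ τ₁ τ₂ h1 h2 q hq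
  set g : R → ℂ := fun x => (rc c (p₂ x) - rc c (p₂ (τ₁ x))) ^ 2 with hg
  have hgτ : ∀ x, g (τ₁ x) = g x := by
    intro x; simp only [hg]; rw [h1.invol]; ring
  have hτp : ∀ x, p₁ (τ₁ x) = p₁ x := by
    intro x
    have : τ₁ x ∈ p₁ ⁻¹' {p₁ x} := by rw [h1.fibre x]; simp
    exact this
  have hsurj : ∀ z : ℂ, (z : OnePoint ℂ) ∉ lim B₁ → ∃ x, p₁ x = z := by
    intro z hz
    have : (z : OnePoint ℂ) ∈ range p₁ := by rw [h1.image]; exact hz
    exact this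
  have hbound : ∀ z : ℂ, (z : OnePoint ℂ) ∈ N → (z : OnePoint ℂ) ∉ lim B₁ →
      ‖HH p₁ g (z : OnePoint ℂ)‖ ≤ (M + M) ^ 2 := by
    intro z hz hz'
    obtain ⟨x, hx⟩ := hsurj z hz'
    rw [← hx, HH_apply h1 hgτ x, hg, norm_pow]
    refine pow_le_pow_left₀ (norm_nonneg _) ((norm_sub_le _ _).trans (add_le_add (hN x ?_).2 (hN (τ₁ x) ?_).2)) 2
    · rw [hx]; exact hz
    · rw [hτp, hx]; exact hz
  have hzero : ∀ z : ℂ, (z : OnePoint ℂ) ∉ lim B₁ → (z : OnePoint ℂ) ∈ B₁ → HH p₁ g (z : OnePoint ℂ) = 0 := by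
    intro z hz hzB
    obtain ⟨x, hx⟩ := hsurj z hz
    have : τ₁ x = x := (h1.branch x).1 (by rw [hx]; exact hzB)
    rw [← hx, HH_apply h1 hgτ x, hg]
    simp [this]
  -- the conclusion from the vanishing on a nonempty open set
  have hconcl : ∀ Ω : Set ℂ, IsOpen Ω → Ω.Nonempty →
      (∀ z ∈ Ω, (z : OnePoint ℂ) ∈ N ∧ (z : OnePoint ℂ) ∉ lim B₁) →
      (∀ z ∈ Ω, HH p₁ g (z : OnePoint ℂ) = 0) → τ₁ = τ₂ := by
    intro Ω hΩ hne hΩN hz
    have hopen : IsOpen ((fun z : ℂ => (z : OnePoint ℂ)) '' Ω) := OnePoint.isOpenEmbedding_coe.isOpenMap _ hΩ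
    have heq : (fun x => p₂ (τ₁ x)) = p₂ := by
      refine hIdent R _ _ (hComp R p₂ τ₁ h2.hol h1.aut) h2.hol (p₁ ⁻¹' ((fun z : ℂ => (z : OnePoint ℂ)) '' Ω))
        (hopen.preimage h1.hol.cont) ?_ ?_
      · obtain ⟨z, hz⟩ := hne
        obtain ⟨x, hx⟩ := hsurj z (hΩN z hz).2
        exact ⟨x, z, hz, hx.symm⟩
      · rintro x ⟨z, hzΩ, hxz⟩
        have h0 := hz z hzΩ
        simp only at hxz
        rw [hxz, HH_apply h1 hgτ x, hg] at h0
        have h0' : rc c (p₂ x) = rc c (p₂ (τ₁ x)) := sub_eq_zero.1 (pow_eq_zero_iff two_ne_zero |>.1 h0)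
        have hxN : p₁ x ∈ N := by rw [← hxz]; exact (hΩN z hzΩ).1
        exact (rc_inj (hN x hxN).1 (hN (τ₁ x) (by rw [hτp]; exact hxN)).1 h0').symm
    exact hDense R B₁ B₂ p₁ p₂ τ₁ τ₂ h1 h2 (fun x => congrFun heq x)
  rcases hNhd B₁ N q hq hNo hqN hiso with ⟨z, r, rfl, hr, hball, hfreq⟩ | ⟨rfl, r, hr, hball, hfreq⟩
  · have hopen : IsOpen (Metric.ball z r \ {z}) := Metric.isOpen_ball.sdiff isClosed_singleton
    have hd := descend hLocal hRc hComp hCont hRemov hDisc h1 h2 (fun x hx => (hN x hx).1) hopen hball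
    have hz := hPunct _ z r ((M + M) ^ 2) hr hd (fun y hy => hbound y (hball y hy).1 (hball y hy).2) (by
      have hev : ∀ᶠ y in 𝓝[≠] z, y ∈ Metric.ball z r \ {z} := by
        filter_upwards [self_mem_nhdsWithin, nhdsWithin_le_nhds (Metric.ball_mem_nhds z hr)] with y hy hy'
        exact ⟨hy', hy⟩
      have hfreq' : ∃ᶠ y in 𝓝[≠] z, ((y : ℂ) : OnePoint ℂ) ∈ B₁ := by
        rw [nhdsNE_coe_eq, frequently_map] at hfreq
        exact hfreq
      exact (hfreq'.and_eventually hev).mono fun y hy => hzero y (hball y hy.2).2 hy.1)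
    refine hconcl _ hopen ?_ hball hz
    refine ⟨z + (r / 2 : ℝ), ?_, ?_⟩
    · simp [abs_of_pos hr]; linarith
    · simp [hr.ne']
  · have hopen : IsOpen {y : ℂ | r < ‖y‖} := isOpen_lt continuous_const continuous_norm
    have hd := descend hLocal hRc hComp hCont hRemov hDisc h1 h2 (fun x hx => (hN x hx).1) hopen hball
    have hz := hPunctInf hPunct _ r ((M + M) ^ 2) hr hd (fun y hy => hbound y (hball y hy).1 (hball y hy).2) (by
      intro K
      obtain ⟨y, hy, hyB⟩ := hfreq (max K r)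
      exact ⟨y, (le_max_left _ _).trans_lt hy, hzero y (hball y ((le_max_right _ _).trans_lt hy)).2 hyB⟩)
    refine hconcl _ hopen ?_ hball hz
    refine ⟨((r + 1 : ℝ) : ℂ), ?_⟩
    simp only [mem_ofPred_eq, Complex.norm_real, Real.norm_eq_abs]
    rw [abs_of_pos (by linarith)]; linarith

end

end Pool.Agent.Q140.HYE
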