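import Mathlib

/-!
Blueprint for MP_e6fbad_gt: uniqueness of the hyperelliptic involution on Riemann surfaces of infinite type
(limit set with an isolated point).
-/

namespace Pool.Agent.Q140.HYE

open Set Filter Topology
open scoped Manifold ContDiff

/-- affine coordinate of the Riemann sphere (`∞ ↦ 0`) -/
noncomputable def aff (w : OnePoint ℂ) : ℂ := w.elim 0 id

/-- the coordinate `1/z` near `∞` (`∞ ↦ 0`) -/
noncomputable def cof (w : OnePoint ℂ) : ℂ := w.elim 0 (fun z => z⁻¹)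

/-- `1/(w - c)`, `∞ ↦ 0` -/
noncomputable def rc (c : ℂ) (w : OnePoint ℂ) : ℂ := w.elim 0 (fun z => (z - c)⁻¹)

/-- holomorphic map from a Riemann surface to the Riemann sphere `OnePoint ℂ` -/
structure Hol {R : Type} [TopologicalSpace R] [ChartedSpace ℂ R] (f : R → OnePoint ℂ) : Prop where
  cont : Continuous f
  fin : ∀ x, f x ≠ OnePoint.infty → MDifferentiableAt 𝓘(ℂ) 𝓘(ℂ) (fun y => aff (f y)) x
  inf : ∀ x, f x = OnePoint.infty → MDifferentiableAt 𝓘(ℂ) 𝓘(ℂ) (fun y => cof (f y)) x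

/-- `x` is a critical point of `f` -/
def Crit {R : Type} [TopologicalSpace R] [ChartedSpace ℂ R] (f : R → OnePoint ℂ) (x : R) : Prop :=
  (f x ≠ OnePoint.infty ∧ mfderiv 𝓘(ℂ) 𝓘(ℂ) (fun y => aff (f y)) x = 0) ∨
  (f x = OnePoint.infty ∧ mfderiv 𝓘(ℂ) 𝓘(ℂ) (fun y => cof (f y)) x = 0)

/-- the set of accumulation points -/
def lim (B : Set (OnePoint ℂ)) : Set (OnePoint ℂ) := {q | AccPt q (𝓟 B)}

/-- `π : R → Ĉ ∖ B'` is a holomorphic degree two branched covering with set of branch values `B`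
and covering involution `τ`. -/
structure Cover {R : Type} [TopologicalSpace R] [ChartedSpace ℂ R] (B : Set (OnePoint ℂ))
    (p : R → OnePoint ℂ) (τ : R → R) : Prop where
  infinite : B.Infinite
  discrete : Disjoint B (lim B)
  connected : IsConnected (lim B)ᶜ
  hol : Hol p
  image : range p = (lim B)ᶜ
  proper : ∀ K : Set (OnePoint ℂ), IsCompact K → K ⊆ (lim B)ᶜ → IsCompact (p ⁻¹' K)
  fibre : ∀ x, p ⁻¹' {p x} = {x, τ x}
  branch : ∀ x, p x ∈ B ↔ τ x = x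
  crit : ∀ x, p x ∈ B ↔ Crit p x
  aut : MDifferentiable 𝓘(ℂ) 𝓘(ℂ) τ
  invol : ∀ x, τ (τ x) = x

/-- local descent: if `H ∘ p = g` near `x` and `p' (x) ≠ 0` then `H` is differentiable at `p x`. -/
def TaskLocal : Prop := ∀ (R : Type) [TopologicalSpace R] [T2Space R] [ChartedSpace ℂ R] [IsManifold 𝓘(ℂ) ω R]
  (p g : R → ℂ) (H : ℂ → ℂ) (x : R), (∀ᶠ y in 𝓝 x, MDifferentiableAt 𝓘(ℂ) 𝓘(ℂ) p y) →
  mfderiv 𝓘(ℂ) 𝓘(ℂ) p x ≠ 0 → MDifferentiableAt 𝓘(ℂ) 𝓘(ℂ) g x → (∀ᶠ y in 𝓝 x, H (p y) = g y) →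
  DifferentiableAt ℂ H (p x)

/-- `1/(f - c)` is holomorphic where `f ≠ c`. At `f x = ∞` it is `v / (1 - c v)`, `v = cof ∘ f`. -/
def TaskRc : Prop := ∀ (R : Type) [TopologicalSpace R] [T2Space R] [ChartedSpace ℂ R] [IsManifold 𝓘(ℂ) ω R]
  (f : R → OnePoint ℂ) (c : ℂ) (x : R), Hol f → f x ≠ (c : OnePoint ℂ) →
  MDifferentiableAt 𝓘(ℂ) 𝓘(ℂ) (fun y => rc c (f y)) x

/-- identity theorem: two holomorphic maps to the sphere which agree on a nonempty open set agree.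
Hint: the interior of `{f = g}` is closed: near a boundary point use the coordinate `aff` (or `cof`) and a chart of
`R` whose image contains a ball; identity theorem for analytic functions on the ball. -/
def TaskIdent : Prop := ∀ (R : Type) [TopologicalSpace R] [T2Space R] [ConnectedSpace R] [ChartedSpace ℂ R]
  [IsManifold 𝓘(ℂ) ω R] (f g : R → OnePoint ℂ), Hol f → Hol g →
  ∀ U : Set R, IsOpen U → U.Nonempty → EqOn f g U → f = g

/-- composition -/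
def TaskComp : Prop := ∀ (R : Type) [TopologicalSpace R] [ChartedSpace ℂ R] [IsManifold 𝓘(ℂ) ω R]
  (f : R → OnePoint ℂ) (τ : R → R), Hol f → MDifferentiable 𝓘(ℂ) 𝓘(ℂ) τ → Hol (fun x => f (τ x))

/-- continuity of the descended function. Hint: for `w ∈ W` take a compact neighbourhood `K ⊆ W`; for `ε > 0` the
set `{x ∈ p⁻¹ K | ε ≤ ‖g x - H w‖}` is compact, its image is closed and does not contain `w`. -/
def TaskCont : Prop := ∀ (R : Type) [TopologicalSpace R] [T2Space R] (p : R → OnePoint ℂ) (V W : Set (OnePoint ℂ))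
  (g : R → ℂ) (H : OnePoint ℂ → ℂ), Continuous p → range p = V →
  (∀ K : Set (OnePoint ℂ), IsCompact K → K ⊆ V → IsCompact (p ⁻¹' K)) → IsOpen W → W ⊆ V →
  ContinuousOn g (p ⁻¹' W) → (∀ x, p x ∈ W → H (p x) = g x) → ∀ w ∈ W, ContinuousAt H w

/-- removable isolated points -/
def TaskRemov : Prop := ∀ (H : ℂ → ℂ) (Ω Z : Set ℂ), IsOpen Ω → (∀ z ∈ Ω, ∀ᶠ y in 𝓝[≠] z, y ∉ Z) →
  ContinuousOn H Ω → (∀ z ∈ Ω, z ∉ Z → DifferentiableAt ℂ H z) → DifferentiableOn ℂ H Ω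

/-- bounded near the isolated point `q`, zeros accumulate at `q` -/
def TaskPunct : Prop := ∀ (H : ℂ → ℂ) (q : ℂ) (r M : ℝ), 0 < r →
  DifferentiableOn ℂ H (Metric.ball q r \ {q}) → (∀ z ∈ Metric.ball q r \ {q}, ‖H z‖ ≤ M) →
  (∃ᶠ z in 𝓝[≠] q, H z = 0) → ∀ z ∈ Metric.ball q r \ {q}, H z = 0

/-- the same at infinity (substitute `1/z`) -/
def TaskPunctInf : Prop := TaskPunct → ∀ (H : ℂ → ℂ) (r M : ℝ), 0 < r →
  DifferentiableOn ℂ H {z | r < ‖z‖} → (∀ z : ℂ, r < ‖z‖ → ‖H z‖ ≤ M) →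
  (∀ N : ℝ, ∃ z : ℂ, N < ‖z‖ ∧ H z = 0) → ∀ z : ℂ, r < ‖z‖ → H z = 0

/-- a finite point `c` off `B'` and a neighbourhood `N` of the limit point `q` of the first covering, over which
`1/(p₂ - c)` is bounded. Hint: `(lim B₂)ᶜ` is open and nonempty, so it contains a closed disc `K` about some finite `c`;
`p₂⁻¹ K` is compact, its image under `p₁` is compact and misses `q`. -/
def TaskBdd : Prop := ∀ (R : Type) [TopologicalSpace R] [T2Space R] [ChartedSpace ℂ R]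
  (B₁ B₂ : Set (OnePoint ℂ)) (p₁ p₂ : R → OnePoint ℂ) (τ₁ τ₂ : R → R), Cover B₁ p₁ τ₁ → Cover B₂ p₂ τ₂ →
  ∀ q ∈ lim B₁, ∃ (c : ℂ) (M : ℝ) (N : Set (OnePoint ℂ)), IsOpen N ∧ q ∈ N ∧
    ∀ x, p₁ x ∈ N → p₂ x ≠ (c : OnePoint ℂ) ∧ ‖rc c (p₂ x)‖ ≤ M

/-- neighbourhoods of an isolated point of `lim B` -/
def TaskNhd : Prop := ∀ (B N : Set (OnePoint ℂ)) (q : OnePoint ℂ), q ∈ lim B → IsOpen N → q ∈ N →
  (∃ N' : Set (OnePoint ℂ), IsOpen N' ∧ q ∈ N' ∧ N' ∩ lim B ⊆ {q}) →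
  (∃ (z : ℂ) (r : ℝ), q = (z : OnePoint ℂ) ∧ 0 < r ∧
    (∀ y ∈ Metric.ball z r \ {z}, (y : OnePoint ℂ) ∈ N ∧ (y : OnePoint ℂ) ∉ lim B) ∧
    (∃ᶠ y in 𝓝[≠] z, (y : OnePoint ℂ) ∈ B)) ∨
  (q = OnePoint.infty ∧ ∃ r : ℝ, 0 < r ∧ (∀ y : ℂ, r < ‖y‖ → (y : OnePoint ℂ) ∈ N ∧ (y : OnePoint ℂ) ∉ lim B) ∧
    (∀ M : ℝ, ∃ y : ℂ, M < ‖y‖ ∧ (y : OnePoint ℂ) ∈ B))

/-- if `p₂ ∘ τ₁ = p₂` then `τ₁ = τ₂`. Hint: `τ₁ x ∈ {x, τ₂ x}`, so `τ₁ = τ₂` off `p₁⁻¹ B₁`; this set has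
empty interior (`B₁` is discrete, fibres over `B₁` are single points, `R` has no isolated points). -/
def TaskDense : Prop := ∀ (R : Type) [TopologicalSpace R] [T2Space R] [ChartedSpace ℂ R]
  (B₁ B₂ : Set (OnePoint ℂ)) (p₁ p₂ : R → OnePoint ℂ) (τ₁ τ₂ : R → R), Cover B₁ p₁ τ₁ → Cover B₂ p₂ τ₂ →
  (∀ x, p₂ (τ₁ x) = p₂ x) → τ₁ = τ₂

/-- the discreteness of `B` in the plane off `lim B` -/
def TaskDisc : Prop := ∀ (B : Set (OnePoint ℂ)) (z : ℂ), (z : OnePoint ℂ) ∉ lim B →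
  ∀ᶠ y in 𝓝[≠] z, (y : OnePoint ℂ) ∉ B

end Pool.Agent.Q140.HYE
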