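import Pool.Agent.Q140.HYE.Stmts

namespace Pool.Agent.Q140.HYE

open Set Filter Topology
open scoped Manifold ContDiff

theorem TaskBdd_proof : TaskBdd := by
  intro R _ _ _ B₁ B₂ p₁ p₂ τ₁ τ₂ h1 h2 q hq
  have hcl : IsClosed (lim B₂) := isClosed_derivedSet B₂
  have hop : IsOpen (lim B₂)ᶜ := hcl.isOpen_compl
  obtain ⟨w, hw⟩ := h2.connected.nonempty
  obtain ⟨y, hy⟩ := (OnePoint.denseRange_coe (X := ℂ)).exists_mem_open hop ⟨w, hw⟩
  have hpre : IsOpen ((fun z : ℂ => (z : OnePoint ℂ)) ⁻¹' (lim B₂)ᶜ) :=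
    hop.preimage OnePoint.continuous_coe
  obtain ⟨ε, hε, hball⟩ := Metric.nhds_basis_closedBall.mem_iff.1 (hpre.mem_nhds hy)
  set K : Set (OnePoint ℂ) := (fun z : ℂ => (z : OnePoint ℂ)) '' Metric.closedBall y ε with hK
  have hKc : IsCompact K := (isCompact_closedBall y ε).image OnePoint.continuous_coe
  have hKs : K ⊆ (lim B₂)ᶜ := by
    rintro _ ⟨z, hz, rfl⟩
    exact hball hz
  have hc1 := h2.proper K hKc hKs
  have hc2 : IsCompact (p₁ '' (p₂ ⁻¹' K)) := hc1.image h1.hol.cont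
  refine ⟨y, ε⁻¹, (p₁ '' (p₂ ⁻¹' K))ᶜ, hc2.isClosed.isOpen_compl, ?_, ?_⟩
  · rintro ⟨x, _, hx⟩
    have : p₁ x ∈ (lim B₁)ᶜ := h1.image ▸ mem_range_self x
    rw [hx] at this
    exact this hq
  · intro x hx
    have hnot : p₂ x ∉ K := fun hk => hx ⟨x, hk, rfl⟩
    refine ⟨?_, ?_⟩
    · intro he
      exact hnot (he ▸ ⟨y, Metric.mem_closedBall_self hε.le, rfl⟩)
    · rcases h : p₂ x with _ | z
      · have : rc y (OnePoint.infty : OnePoint ℂ) = 0 := rfl
        change ‖rc y (OnePoint.infty : OnePoint ℂ)‖ ≤ ε⁻¹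
        rw [this, norm_zero]
        positivity
      · change ‖(z - y)⁻¹‖ ≤ ε⁻¹
        have hz : ε < ‖z - y‖ := by
          by_contra hle
          push Not at hle
          apply hnot
          refine ⟨z, ?_, h.symm⟩
          rw [Metric.mem_closedBall, dist_eq_norm]
          exact hle
        rw [norm_inv]
        exact inv_anti₀ hε hz.le

end Pool.Agent.Q140.HYE
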