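import Pool.Agent.Q140.HYE.Stmts

/-! Blueprint for MP_e6fbad_gt: composition of a holomorphic map to the sphere with a holomorphic self-map
(helper182). -/

open Set Filter Topology
open scoped Manifold ContDiff

namespace Pool.Agent.Q140.HYE.TaskComp
open Pool.Agent.Q140.HYE

theorem main : Pool.Agent.Q140.HYE.TaskComp := by
  intro R _ _ _ f τ hf hτ
  refine ⟨hf.cont.comp hτ.continuous, fun x hx => ?_, fun x hx => ?_⟩
  · exact MDifferentiableAt.comp x (hf.fin (τ x) hx) (hτ x)
  · exact MDifferentiableAt.comp x (hf.inf (τ x) hx) (hτ x)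

end Pool.Agent.Q140.HYE.TaskComp
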