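import Pool.Agent.Q140.HYE.Stmts

set_option autoImplicit false

namespace Pool.Agent.Q140.HYE

open Set Filter Topology

theorem TaskCont_proof : TaskCont := by
  intro R _ _ p V W g H hp hV hprop hW hWV hg hH w hw
  rw [Metric.continuousAt_iff']
  intro ε hε
  obtain ⟨K, hK, hwK, hKW⟩ := exists_compact_subset hW hw
  have hpK : IsCompact (p ⁻¹' K) := hprop K hK (hKW.trans hWV)
  have hcl : IsClosed (p ⁻¹' K ∩ g ⁻¹' {z | ε ≤ dist z (H w)}) := by
    refine ContinuousOn.preimage_isClosed_of_isClosed (hg.mono (preimage_mono hKW)) ?_ ?_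
    · exact hK.isClosed.preimage hp
    · exact isClosed_le continuous_const (continuous_id.dist continuous_const)
  have hS : IsCompact (p ⁻¹' K ∩ g ⁻¹' {z | ε ≤ dist z (H w)}) :=
    hpK.of_isClosed_subset hcl inter_subset_left
  have himg : IsClosed (p '' (p ⁻¹' K ∩ g ⁻¹' {z | ε ≤ dist z (H w)})) := (hS.image hp).isClosed
  have hwn : w ∉ p '' (p ⁻¹' K ∩ g ⁻¹' {z | ε ≤ dist z (H w)}) := by
    rintro ⟨x, ⟨_, hx2⟩, hxw⟩
    have h1 : H (p x) = g x := hH x (by rw [hxw]; exact hw)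
    have h2 : ε ≤ dist (g x) (H w) := hx2
    rw [← h1, hxw, dist_self] at h2
    linarith
  filter_upwards [isOpen_interior.mem_nhds hwK, himg.isOpen_compl.mem_nhds hwn] with v hv1 hv2
  have hvK : v ∈ K := interior_subset hv1
  have hvV : v ∈ V := hWV (hKW hvK)
  rw [← hV] at hvV
  obtain ⟨x, rfl⟩ := hvV
  rw [hH x (hKW hvK)]
  by_contra hcon
  rw [not_lt] at hcon
  exact hv2 ⟨x, ⟨hvK, hcon⟩, rfl⟩

end Pool.Agent.Q140.HYE
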