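import Mathlib
import Pool.Agent.Q140.HYE.Stmts

set_option autoImplicit false

namespace Pool.Agent.Q140.HYE.TaskDense

open Set Filter Topology Pool.Agent.Q140.HYE
open scoped Manifold ContDiff

theorem main : Pool.Agent.Q140.HYE.TaskDense := by
  intro R _ _ _ B₁ B₂ p₁ p₂ τ₁ τ₂ h₁ h₂ hp
  -- `τ₁ = τ₂` off the branch points of the first covering
  have hoff : ∀ x, τ₁ x ≠ x → τ₁ x = τ₂ x := by
    intro x hx
    have h3 : τ₁ x ∈ p₂ ⁻¹' {p₂ x} := hp x
    rw [h₂.fibre x] at h3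
    rcases h3 with h3 | h3
    · exact absurd h3 hx
    · exact h3
  have hdense : Dense {x : R | τ₁ x ≠ x} := by
    rw [dense_iff_inter_open]
    intro U hU hUne
    by_contra hcon
    rw [not_nonempty_iff_eq_empty] at hcon
    have hfix : ∀ y ∈ U, τ₁ y = y := by
      intro y hy
      by_contra hne
      exact (hcon ▸ (⟨hy, hne⟩ : y ∈ U ∩ {x : R | τ₁ x ≠ x}) : y ∈ (∅ : Set R))
    obtain ⟨x, hx⟩ := hUne
    have hxB : p₁ x ∈ B₁ := (h₁.branch x).2 (hfix x hx)
    have hnl : ¬ AccPt (p₁ x) (𝓟 B₁) := fun hacc => Set.disjoint_left.1 h₁.discrete hxB hacc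
    rw [accPt_iff_frequently, Filter.not_frequently] at hnl
    have h4 : ∀ᶠ y in 𝓝 x, ¬ (p₁ y ≠ p₁ x ∧ p₁ y ∈ B₁) := (h₁.hol.cont.tendsto x).eventually hnl
    have h5 : ∀ᶠ y in 𝓝 x, y = x := by
      filter_upwards [h4, hU.mem_nhds hx] with y hy hyU
      have hyB : p₁ y ∈ B₁ := (h₁.branch y).2 (hfix y hyU)
      have hyx : p₁ y = p₁ x := by
        by_contra hne
        exact hy ⟨hne, hyB⟩
      have h6 : y ∈ p₁ ⁻¹' {p₁ x} := hyx
      rw [h₁.fibre x, hfix x hx] at h6
      simpa using h6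
    -- but `R` has no isolated points
    have h7 : {x} ∈ 𝓝 x := by
      filter_upwards [h5] with y hy using hy
    have h8 : IsOpen ({x} : Set R) := isOpen_singleton_iff_nhds_eq_pure x |>.2
      (le_antisymm (by rw [Filter.le_pure_iff]; exact h7) (pure_le_nhds x))
    have h9 : IsOpen ((chartAt ℂ x) '' {x}) :=
      (chartAt ℂ x).isOpen_image_of_subset_source h8
        (by simp)
    rw [image_singleton] at h9
    exact not_isOpen_singleton _ h9
  have hc₁ : Continuous τ₁ := h₁.aut.continuous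
  have hc₂ : Continuous τ₂ := h₂.aut.continuous
  exact Continuous.ext_on hdense hc₁ hc₂ fun x hx => hoff x hx

end Pool.Agent.Q140.HYE.TaskDense
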