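import Pool.Agent.Q140.HYE.Stmts

namespace Pool.Agent.Q140.HYE

open Set Filter Topology

theorem TaskDisc_proof : TaskDisc := by
  intro B z hz
  have h2 : ¬ AccPt (z : OnePoint ℂ) (𝓟 B) := hz
  rw [accPt_iff_frequently_nhdsNE] at h2
  exact Filter.not_frequently.mp h2

/-- the version with `y : ℂ` -/
theorem TaskDisc_complex (B : Set (OnePoint ℂ)) (z : ℂ) (hz : (z : OnePoint ℂ) ∉ lim B) :
    ∀ᶠ y : ℂ in 𝓝[≠] z, ((y : ℂ) : OnePoint ℂ) ∉ B := by
  have h1 := TaskDisc_proof B z hz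
  have h3 : Tendsto (fun y : ℂ => (y : OnePoint ℂ)) (𝓝[≠] z) (𝓝[≠] (z : OnePoint ℂ)) := by
    refine tendsto_nhdsWithin_iff.mpr ⟨?_, ?_⟩
    · exact (OnePoint.continuous_coe.tendsto z).mono_left nhdsWithin_le_nhds
    · filter_upwards [self_mem_nhdsWithin] with y hy
      intro h
      exact hy (OnePoint.coe_injective h)
  exact h3.eventually h1

/-- the frequently statement passes from the sphere to the plane -/
theorem freq_complex (B : Set (OnePoint ℂ)) (z : ℂ)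
    (h : ∃ᶠ y : OnePoint ℂ in 𝓝[≠] (z : OnePoint ℂ), y ∈ B) :
    ∃ᶠ y : ℂ in 𝓝[≠] z, ((y : ℂ) : OnePoint ℂ) ∈ B := by
  intro h1
  apply h
  rw [eventually_nhdsWithin_iff] at h1 ⊢
  rw [OnePoint.nhds_coe_eq, eventually_map]
  filter_upwards [h1] with y hy hne
  exact hy (fun h0 => hne (by rw [h0]; rfl))

end Pool.Agent.Q140.HYE
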