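import Pool.Agent.Q140.HYE.Stmts

set_option autoImplicit false

namespace Pool.Agent.Q140.HYE

open Set Filter Topology
open scoped Manifold ContDiff

private lemma id_chart {R : Type} [TopologicalSpace R] [ChartedSpace ℂ R] [IsManifold 𝓘(ℂ) ω R]
    (ψ : R → ℂ) (x : R) (z : ℂ) (hz : z ∈ (chartAt ℂ x).target)
    (h : MDifferentiableAt 𝓘(ℂ) 𝓘(ℂ) ψ ((chartAt ℂ x).symm z)) :
    DifferentiableAt ℂ (fun z => ψ ((chartAt ℂ x).symm z)) z := by
  have h1 : MDifferentiableAt 𝓘(ℂ) 𝓘(ℂ) (chartAt ℂ x).symm z :=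
    mdifferentiableAt_atlas_symm (chart_mem_atlas ℂ x) hz
  have h2 : MDifferentiableAt 𝓘(ℂ) 𝓘(ℂ) (ψ ∘ (chartAt ℂ x).symm) z := h.comp z h1
  exact mdifferentiableAt_iff_differentiableAt.1 h2

private lemma id_core {R : Type} [TopologicalSpace R] [ChartedSpace ℂ R] [IsManifold 𝓘(ℂ) ω R]
    (F G : R → ℂ) (N : Set R) (hN : IsOpen N) (x : R) (hx : x ∈ N)
    (hF : ∀ y ∈ N, MDifferentiableAt 𝓘(ℂ) 𝓘(ℂ) F y)
    (hG : ∀ y ∈ N, MDifferentiableAt 𝓘(ℂ) 𝓘(ℂ) G y)
    (S : Set R) (hS : IsOpen S) (hSx : x ∈ closure S) (hFG : ∀ y ∈ S, F y = G y) :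
    ∃ V : Set R, IsOpen V ∧ x ∈ V ∧ V ⊆ N ∧ ∀ y ∈ V, F y = G y := by
  set φ := chartAt ℂ x with hφ
  have hxs : x ∈ φ.source := mem_chart_source ℂ x
  have hT : IsOpen (φ.target ∩ φ.symm ⁻¹' N) := φ.isOpen_inter_preimage_symm hN
  have hxT : φ x ∈ φ.target ∩ φ.symm ⁻¹' N :=
    ⟨φ.map_source hxs, by simpa [φ.left_inv hxs] using hx⟩
  obtain ⟨r, hr, hball⟩ := Metric.isOpen_iff.1 hT _ hxT
  have hV : IsOpen (φ.source ∩ φ ⁻¹' Metric.ball (φ x) r) :=
    φ.isOpen_inter_preimage Metric.isOpen_ball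
  have hxV : x ∈ φ.source ∩ φ ⁻¹' Metric.ball (φ x) r := ⟨hxs, by simpa using hr⟩
  have hVN : φ.source ∩ φ ⁻¹' Metric.ball (φ x) r ⊆ N := by
    intro y hy
    have := (hball hy.2).2
    simpa [φ.left_inv hy.1] using this
  have hFd : DifferentiableOn ℂ (fun z => F (φ.symm z)) (Metric.ball (φ x) r) := by
    intro z hz
    exact (id_chart F x z (hball hz).1 (hF _ (hball hz).2)).differentiableWithinAt
  have hGd : DifferentiableOn ℂ (fun z => G (φ.symm z)) (Metric.ball (φ x) r) := by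
    intro z hz
    exact (id_chart G x z (hball hz).1 (hG _ (hball hz).2)).differentiableWithinAt
  have hFa := hFd.analyticOnNhd Metric.isOpen_ball
  have hGa := hGd.analyticOnNhd Metric.isOpen_ball
  obtain ⟨s, hsV, hsS⟩ := mem_closure_iff.1 hSx _ hV hxV
  have hev : (fun z => F (φ.symm z)) =ᶠ[𝓝 (φ s)] fun z => G (φ.symm z) := by
    have hc : ContinuousAt φ.symm (φ s) := φ.continuousAt_symm (φ.map_source hsV.1)
    have hmem : S ∈ 𝓝 (φ.symm (φ s)) := by
      rw [φ.left_inv hsV.1]; exact hS.mem_nhds hsS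
    filter_upwards [hc hmem] with z hz
    exact hFG _ hz
  have hE := hFa.eqOn_of_preconnected_of_eventuallyEq hGa
    (convex_ball (φ x) r).isPreconnected hsV.2 hev
  refine ⟨_, hV, hxV, hVN, ?_⟩
  intro y hy
  have := hE hy.2
  simpa [φ.left_inv hy.1] using this

private lemma id_cof {R : Type} [TopologicalSpace R] [ChartedSpace ℂ R]
    (f : R → OnePoint ℂ) (hf : Hol f) (y : R) (hy : f y ≠ ((0 : ℂ) : OnePoint ℂ)) :
    MDifferentiableAt 𝓘(ℂ) 𝓘(ℂ) (fun y => cof (f y)) y := by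
  by_cases hi : f y = OnePoint.infty
  · exact hf.inf y hi
  · have h1 := hf.fin y hi
    have hne : aff (f y) ≠ 0 := by
      obtain ⟨z, hz⟩ := OnePoint.ne_infty_iff_exists.1 hi
      rw [← hz]
      intro h0
      apply hy
      rw [← hz]
      have : z = 0 := h0
      rw [this]
    have h2 : MDifferentiableAt 𝓘(ℂ) 𝓘(ℂ) (fun z : ℂ => z⁻¹) (aff (f y)) :=
      (differentiableAt_inv hne).mdifferentiableAt
    have h3 : MDifferentiableAt 𝓘(ℂ) 𝓘(ℂ) ((fun z : ℂ => z⁻¹) ∘ fun y => aff (f y)) y :=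
      h2.comp y h1
    refine h3.congr_of_eventuallyEq ?_
    have hop : IsOpen {y | f y ≠ OnePoint.infty} := isOpen_ne.preimage hf.cont
    filter_upwards [hop.mem_nhds hi] with w hw
    obtain ⟨z, hz⟩ := OnePoint.ne_infty_iff_exists.1 hw
    simp only [Function.comp]
    rw [← hz]
    rfl

theorem TaskIdent_proof : TaskIdent := by
  intro R _ _ _ _ _ f g hf hg U hU hUn hfg
  set S : Set R := interior {y | f y = g y} with hSdef
  have hSo : IsOpen S := isOpen_interior
  have hUS : U ⊆ S := interior_maximal (fun y hy => hfg hy) hU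
  have hSn : S.Nonempty := hUn.mono hUS
  have hcl : IsClosed {y | f y = g y} := isClosed_eq hf.cont hg.cont
  have hSE : ∀ y ∈ S, f y = g y := by
    intro y hy
    have h1 : y ∈ {y | f y = g y} := interior_subset hy
    exact h1
  have hSc : IsClosed S := by
    refine isClosed_of_closure_subset ?_
    intro x hx
    have hxE : f x = g x := by
      have : closure S ⊆ {y | f y = g y} := closure_minimal interior_subset hcl
      exact this hx
    by_cases hi : f x = OnePoint.infty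
    · have hN : IsOpen ({y | f y ≠ ((0 : ℂ) : OnePoint ℂ)} ∩ {y | g y ≠ ((0 : ℂ) : OnePoint ℂ)}) :=
        (isOpen_ne.preimage hf.cont).inter (isOpen_ne.preimage hg.cont)
      have hxN : x ∈ {y | f y ≠ ((0 : ℂ) : OnePoint ℂ)} ∩ {y | g y ≠ ((0 : ℂ) : OnePoint ℂ)} := by
        constructor
        · show f x ≠ _
          rw [hi]; exact OnePoint.infty_ne_coe _
        · show g x ≠ _
          rw [← hxE, hi]; exact OnePoint.infty_ne_coe _
      obtain ⟨V, hV, hxV, hVN, hVE⟩ := id_core (fun y => cof (f y)) (fun y => cof (g y)) _ hN x hxN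
        (fun y hy => id_cof f hf y hy.1) (fun y hy => id_cof g hg y hy.2) S hSo hx
        (fun y hy => by simp only [hSE y hy])
      refine interior_maximal ?_ hV hxV
      intro y hy
      have h1 := hVN hy
      have h2 : cof (f y) = cof (g y) := hVE y hy
      show f y = g y
      by_cases hfy : f y = OnePoint.infty
      · by_cases hgy : g y = OnePoint.infty
        · rw [hfy, hgy]
        · exfalso
          obtain ⟨w, hw⟩ := OnePoint.ne_infty_iff_exists.1 hgy
          have hw0 : w ≠ 0 := by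
            rintro rfl; exact h1.2 hw.symm
          rw [hfy, ← hw] at h2
          have h3 : (0 : ℂ) = w⁻¹ := h2
          exact inv_ne_zero hw0 h3.symm
      · obtain ⟨z, hz⟩ := OnePoint.ne_infty_iff_exists.1 hfy
        have hz0 : z ≠ 0 := by
          rintro rfl; exact h1.1 hz.symm
        by_cases hgy : g y = OnePoint.infty
        · exfalso
          rw [hgy, ← hz] at h2
          have h3 : z⁻¹ = (0 : ℂ) := h2
          exact inv_ne_zero hz0 h3
        · obtain ⟨w, hw⟩ := OnePoint.ne_infty_iff_exists.1 hgy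
          rw [← hw, ← hz] at h2
          have h3 : z⁻¹ = w⁻¹ := h2
          rw [← hz, ← hw, inv_inj.1 h3]
    · have hN : IsOpen ({y | f y ≠ OnePoint.infty} ∩ {y | g y ≠ OnePoint.infty}) :=
        (isOpen_ne.preimage hf.cont).inter (isOpen_ne.preimage hg.cont)
      have hxN : x ∈ {y | f y ≠ OnePoint.infty} ∩ {y | g y ≠ OnePoint.infty} :=
        ⟨hi, by show g x ≠ _; rw [← hxE]; exact hi⟩
      obtain ⟨V, hV, hxV, hVN, hVE⟩ := id_core (fun y => aff (f y)) (fun y => aff (g y)) _ hN x hxN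
        (fun y hy => hf.fin y hy.1) (fun y hy => hg.fin y hy.2) S hSo hx
        (fun y hy => by simp only [hSE y hy])
      refine interior_maximal ?_ hV hxV
      intro y hy
      have h1 := hVN hy
      have h2 : aff (f y) = aff (g y) := hVE y hy
      show f y = g y
      obtain ⟨z, hz⟩ := OnePoint.ne_infty_iff_exists.1 h1.1
      obtain ⟨w, hw⟩ := OnePoint.ne_infty_iff_exists.1 h1.2
      rw [← hw, ← hz] at h2
      have h3 : z = w := h2
      rw [← hz, ← hw, h3]
  have hSu : S = univ := IsClopen.eq_univ ⟨hSc, hSo⟩ hSn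
  funext y
  exact hSE y (hSu ▸ mem_univ y)

end Pool.Agent.Q140.HYE
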