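import Pool.Agent.Q140.HYE.Stmts

set_option autoImplicit false

namespace Pool.Agent.Q140.HYE.TaskLocal

open Set Filter Topology
open scoped Manifold ContDiff

theorem main : TaskLocal := by
  intro R _ _ _ _ p g H x hp hne hg hH
  obtain ⟨φ, hφ⟩ : ∃ φ, φ = chartAt ℂ x := ⟨_, rfl⟩
  have hat : φ ∈ atlas ℂ R := by rw [hφ]; exact chart_mem_atlas ℂ x
  have hx : x ∈ φ.source := by rw [hφ]; exact mem_chart_source ℂ x
  have hz0 : φ x ∈ φ.target := φ.map_source hx
  have hsymm : φ.symm (φ x) = x := φ.left_inv hx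
  have htend : Tendsto φ.symm (𝓝 (φ x)) (𝓝 x) := by
    have := φ.continuousAt_symm hz0
    unfold ContinuousAt at this
    rwa [hsymm] at this
  have hsm : MDifferentiableAt 𝓘(ℂ) 𝓘(ℂ) φ.symm (φ x) := mdifferentiableAt_atlas_symm hat hz0
  have hPd : ∀ᶠ z in 𝓝 (φ x), DifferentiableAt ℂ (fun z => p (φ.symm z)) z := by
    have h1 : ∀ᶠ z in 𝓝 (φ x), z ∈ φ.target := φ.open_target.mem_nhds hz0
    have h2 : ∀ᶠ z in 𝓝 (φ x), MDifferentiableAt 𝓘(ℂ) 𝓘(ℂ) p (φ.symm z) := htend.eventually hp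
    filter_upwards [h1, h2] with z hz1 hz2
    have h3 : MDifferentiableAt 𝓘(ℂ) 𝓘(ℂ) φ.symm z := mdifferentiableAt_atlas_symm hat hz1
    exact mdifferentiableAt_iff_differentiableAt.1 (hz2.comp z h3)
  have hPa : AnalyticAt ℂ (fun z => p (φ.symm z)) (φ x) :=
    Complex.analyticAt_iff_eventually_differentiableAt.2 hPd
  have hGd : DifferentiableAt ℂ (fun z => g (φ.symm z)) (φ x) := by
    have hg' : MDifferentiableAt 𝓘(ℂ) 𝓘(ℂ) g (φ.symm (φ x)) := by rwa [hsymm]
    exact mdifferentiableAt_iff_differentiableAt.1 (hg'.comp (φ x) hsm)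
  have hder : deriv (fun z => p (φ.symm z)) (φ x) ≠ 0 := by
    intro h0
    apply hne
    have heq : p =ᶠ[𝓝 x] (fun z => p (φ.symm z)) ∘ φ := by
      filter_upwards [φ.open_source.mem_nhds hx] with y hy
      show p y = p (φ.symm (φ y))
      rw [φ.left_inv hy]
    have hPm : MDifferentiableAt 𝓘(ℂ) 𝓘(ℂ) (fun z => p (φ.symm z)) (φ x) :=
      mdifferentiableAt_iff_differentiableAt.2 hPa.differentiableAt
    have hφm : MDifferentiableAt 𝓘(ℂ) 𝓘(ℂ) φ x := mdifferentiableAt_atlas hat hx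
    rw [heq.mfderiv_eq, mfderiv_comp x hPm hφm, mfderiv_eq_fderiv]
    have h1 : fderiv ℂ (fun z => p (φ.symm z)) (φ x) = 0 := by
      ext
      simp [h0]
    rw [h1]
    exact ContinuousLinearMap.zero_comp _
  have hstrict : HasStrictDerivAt (fun z => p (φ.symm z))
      (deriv (fun z => p (φ.symm z)) (φ x)) (φ x) := hPa.hasStrictDerivAt
  have hQ := hstrict.to_localInverse hder
  obtain ⟨Q, hQdef⟩ : ∃ Q, Q = hstrict.localInverse _ _ _ hder := ⟨_, rfl⟩
  rw [← hQdef] at hQ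
  have hQx : Q (p x) = φ x := by
    have := HasStrictFDerivAt.localInverse_apply_image (hstrict.hasStrictFDerivAt_equiv hder)
    rw [hQdef]
    simpa [hsymm] using this
  have hQr : ∀ᶠ w in 𝓝 (p x), p (φ.symm (Q w)) = w := by
    have := HasStrictFDerivAt.eventually_right_inverse (hstrict.hasStrictFDerivAt_equiv hder)
    simp only [hsymm] at this
    rw [hQdef]
    exact this
  simp only [hsymm] at hQ
  have hQd : DifferentiableAt ℂ Q (p x) := hQ.hasDerivAt.differentiableAt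
  have hQc : Tendsto Q (𝓝 (p x)) (𝓝 (φ x)) := by
    have := hQd.continuousAt
    unfold ContinuousAt at this
    rwa [hQx] at this
  have hcomp : DifferentiableAt ℂ (fun w => g (φ.symm (Q w))) (p x) := by
    have hGd' : DifferentiableAt ℂ (fun z => g (φ.symm z)) (Q (p x)) := by rwa [hQx]
    exact hGd'.comp (p x) hQd
  refine hcomp.congr_of_eventuallyEq ?_
  filter_upwards [hQr, (htend.comp hQc).eventually hH] with w hw1 hw2
  have hw3 : H (p (φ.symm (Q w))) = g (φ.symm (Q w)) := hw2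
  rw [← hw3, hw1]

end Pool.Agent.Q140.HYE.TaskLocal
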