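import Pool.Agent.Q140.HYE.Stmts

set_option autoImplicit false

namespace Pool.Agent.Q140.HYE.TaskNhd

open Set Filter Topology Pool.Agent.Q140.HYE

theorem main : TaskNhd := by
  intro B N q hq hN hqN ⟨N', hN', hqN', hsub⟩
  have hfr : ∃ᶠ y in 𝓝[≠] q, y ∈ B := accPt_iff_frequently_nhdsNE.1 hq
  induction q using OnePoint.rec with
  | infty =>
    right
    refine ⟨rfl, ?_⟩
    rw [OnePoint.nhdsNE_infty_eq, coclosedCompact_eq_cocompact, ← Metric.cobounded_eq_cocompact,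
      frequently_map] at hfr
    have h1 : N ∩ N' ∈ 𝓝[≠] (OnePoint.infty : OnePoint ℂ) :=
      mem_nhdsWithin_of_mem_nhds ((hN.inter hN').mem_nhds ⟨hqN, hqN'⟩)
    rw [OnePoint.nhdsNE_infty_eq, coclosedCompact_eq_cocompact, ← Metric.cobounded_eq_cocompact,
      mem_map, ← comap_norm_atTop] at h1
    have h2 := eventually_comap.1 h1
    obtain ⟨a, ha⟩ := eventually_atTop.1 h2
    refine ⟨max a 1, lt_of_lt_of_le one_pos (le_max_right _ _), ?_, ?_⟩
    · intro y hy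
      have h3 : (y : OnePoint ℂ) ∈ N ∩ N' := ha ‖y‖ ((le_max_left _ _).trans hy.le) y rfl
      refine ⟨h3.1, fun h4 => ?_⟩
      have h5 := hsub ⟨h3.2, h4⟩
      exact OnePoint.coe_ne_infty y h5
    · intro M
      have h3 : ∀ᶠ y : ℂ in Bornology.cobounded ℂ, M < ‖y‖ :=
        tendsto_norm_cobounded_atTop.eventually_gt_atTop M
      obtain ⟨y, hy⟩ := (hfr.and_eventually h3).exists
      exact ⟨y, hy.2, hy.1⟩
  | coe z =>
    left
    have h1 : ((↑) : ℂ → OnePoint ℂ) ⁻¹' (N ∩ N') ∈ 𝓝 z :=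
      OnePoint.continuous_coe.continuousAt ((hN.inter hN').mem_nhds ⟨hqN, hqN'⟩)
    obtain ⟨r, hr, hr2⟩ := Metric.mem_nhds_iff.1 h1
    refine ⟨z, r, rfl, hr, ?_, hfr⟩
    rintro y ⟨hy, hyz⟩
    have h3 : (y : OnePoint ℂ) ∈ N ∩ N' := hr2 hy
    refine ⟨h3.1, fun h4 => ?_⟩
    have h5 := hsub ⟨h3.2, h4⟩
    exact hyz (OnePoint.coe_injective h5)

end Pool.Agent.Q140.HYE.TaskNhd
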