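import Pool.Agent.Q140.HYE.Stmts

namespace Pool.Agent.Q140.HYE.TaskPunct

open Set Filter Topology

theorem main : Pool.Agent.Q140.HYE.TaskPunct := by
  intro H q r M hr hd hb hf
  have hs : Metric.ball q r ∈ 𝓝 q := Metric.ball_mem_nhds q hr
  have hbd : BddAbove (norm ∘ H '' (Metric.ball q r \ {q})) := by
    refine ⟨M, ?_⟩
    rintro _ ⟨z, hz, rfl⟩
    exact hb z hz
  have hg := Complex.differentiableOn_update_limUnder_of_bddAbove hs hd hbd
  set g := Function.update H q (limUnder (𝓝[≠] q) H) with hgdef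
  have han : AnalyticOnNhd ℂ g (Metric.ball q r) := hg.analyticOnNhd Metric.isOpen_ball
  have hfr : ∃ᶠ z in 𝓝[≠] q, g z = 0 := by
    have hne : ∀ᶠ z in 𝓝[≠] q, z ≠ q := eventually_mem_nhdsWithin
    refine (hf.and_eventually hne).mono fun z hz => ?_
    rw [hgdef, Function.update_of_ne hz.2]
    exact hz.1
  have h0 := han.eqOn_zero_of_preconnected_of_frequently_eq_zero
    (convex_ball q r).isPreconnected (Metric.mem_ball_self hr) hfr
  intro z hz
  have h1 := h0 hz.1
  rw [hgdef, Function.update_of_ne (by simpa using hz.2)] at h1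
  simpa using h1

end Pool.Agent.Q140.HYE.TaskPunct
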