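import Mathlib
import Pool.Agent.Q140.HYE.Stmts

set_option autoImplicit false

namespace Pool.Agent.Q140.HYE.TaskPunctInf

open Set Filter Topology Pool.Agent.Q140.HYE

theorem main : Pool.Agent.Q140.HYE.TaskPunctInf := by
  intro hP H r M hr hH hM hz z hzr
  have hr' : 0 < r⁻¹ := inv_pos.2 hr
  have hlarge : ∀ w ∈ Metric.ball (0 : ℂ) r⁻¹ \ {0}, r < ‖w⁻¹‖ := by
    rintro w ⟨hw, hw0⟩
    rw [mem_ball_zero_iff] at hw
    have hw1 : 0 < ‖w‖ := norm_pos_iff.2 hw0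
    rw [norm_inv]
    exact (lt_inv_comm₀ hr hw1).2 hw
  have key := hP (fun w => H w⁻¹) 0 r⁻¹ M hr' ?_ ?_ ?_ z⁻¹ ?_
  · simpa using key
  · intro w hw
    have h1 : DifferentiableAt ℂ H w⁻¹ :=
      (hH _ (hlarge w hw)).differentiableAt
        ((isOpen_lt continuous_const continuous_norm).mem_nhds (hlarge w hw))
    have h2 : DifferentiableAt ℂ (fun w : ℂ => w⁻¹) w := differentiableAt_inv hw.2
    exact (h1.comp w h2).differentiableWithinAt
  · intro w hw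
    exact hM _ (hlarge w hw)
  · rw [Filter.frequently_iff]
    intro U hU
    rw [mem_nhdsWithin] at hU
    obtain ⟨V, hV, h0V, hVU⟩ := hU
    obtain ⟨ε, hε, hball⟩ := Metric.isOpen_iff.1 hV 0 h0V
    obtain ⟨y, hy, hy0⟩ := hz (max ε⁻¹ 0)
    have hy1 : 0 < ‖y‖ := lt_of_le_of_lt (le_max_right _ _) hy
    have hy2 : ε⁻¹ < ‖y‖ := lt_of_le_of_lt (le_max_left _ _) hy
    refine ⟨y⁻¹, hVU ⟨hball ?_, ?_⟩, by simpa using hy0⟩
    · rw [mem_ball_zero_iff, norm_inv]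
      exact (inv_lt_comm₀ hε hy1).1 hy2
    · simp only [mem_compl_iff, mem_singleton_iff, inv_eq_zero]
      exact norm_pos_iff.1 hy1
  · have hz1 : 0 < ‖z‖ := hr.trans hzr
    refine ⟨?_, ?_⟩
    · rw [mem_ball_zero_iff, norm_inv]
      exact (inv_lt_inv₀ hz1 hr).2 hzr
    · simp only [mem_singleton_iff, inv_eq_zero]
      exact norm_pos_iff.1 hz1

end Pool.Agent.Q140.HYE.TaskPunctInf
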