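import Pool.Agent.Q140.HYE.Stmts

namespace Pool.Agent.Q140.HYE.TaskRc

open Set Filter Topology Pool.Agent.Q140.HYE
open scoped Manifold ContDiff

theorem main : Pool.Agent.Q140.HYE.TaskRc := by
  intro R _ _ _ _ f c x hf hx
  by_cases h : f x = OnePoint.infty
  · -- the point at infinity
    have hv := hf.inf x h
    have hvx : cof (f x) = 0 := by rw [h]; rfl
    have hg : DifferentiableAt ℂ (fun w : ℂ => w / (1 - c * w)) (cof (f x)) := by
      rw [hvx]
      apply DifferentiableAt.div differentiableAt_id
      · exact (differentiableAt_const _).sub ((differentiableAt_const _).mul differentiableAt_id)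
      · simp
    have h0 : ∀ᶠ y in 𝓝 x, f y ≠ ((0 : ℂ) : OnePoint ℂ) :=
      hf.cont.continuousAt.eventually_ne (by rw [h]; exact OnePoint.infty_ne_coe _)
    refine MDifferentiableAt.congr_of_eventuallyEq
      (hg.mdifferentiableAt.comp x hv) ?_
    filter_upwards [h0] with y hy
    show rc c (f y) = cof (f y) / (1 - c * cof (f y))
    induction hfy : f y using OnePoint.rec with
    | infty => simp [rc, cof]
    | coe z =>
      have hz : z ≠ 0 := by
        intro h0
        rw [hfy, h0] at hy
        exact hy rfl
      show (z - c)⁻¹ = z⁻¹ / (1 - c * z⁻¹)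
      have : 1 - c * z⁻¹ = (z - c) * z⁻¹ := by field_simp
      rw [this, div_eq_mul_inv, mul_inv, inv_inv]
      field_simp
  · have hu := hf.fin x h
    have hne : aff (f x) - c ≠ 0 := by
      intro h1
      apply hx
      induction hfx : f x using OnePoint.rec with
      | infty => exact absurd hfx h
      | coe z =>
        rw [hfx] at h1
        have : z - c = 0 := h1
        rw [sub_eq_zero.1 this]
    have hg : DifferentiableAt ℂ (fun w : ℂ => (w - c)⁻¹) (aff (f x)) :=
      (differentiableAt_id.sub (differentiableAt_const _)).inv hne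
    have h0 : ∀ᶠ y in 𝓝 x, f y ≠ OnePoint.infty := hf.cont.continuousAt.eventually_ne h
    refine MDifferentiableAt.congr_of_eventuallyEq
      (hg.mdifferentiableAt.comp x hu) ?_
    filter_upwards [h0] with y hy
    show rc c (f y) = (aff (f y) - c)⁻¹
    induction hfy : f y using OnePoint.rec with
    | infty => exact absurd hfy hy
    | coe z => rfl

end Pool.Agent.Q140.HYE.TaskRc
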