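import Mathlib
import Pool.Agent.Q140.HYE.Stmts

set_option autoImplicit false

namespace Pool.Agent.Q140.HYE.TaskRemov

open Set Filter Topology Pool.Agent.Q140.HYE

theorem main : Pool.Agent.Q140.HYE.TaskRemov := by
  intro H Ω Z hΩ hZ hc hd z hz
  have h1 : ∀ᶠ y in 𝓝[≠] z, DifferentiableAt ℂ H y := by
    have h2 : ∀ᶠ y in 𝓝[≠] z, y ∈ Ω := mem_nhdsWithin_of_mem_nhds (hΩ.mem_nhds hz)
    filter_upwards [hZ z hz, h2] with y hy hy2
    exact hd y hy2 hy
  have h3 : ContinuousAt H z := hc.continuousAt (hΩ.mem_nhds hz)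
  exact (Complex.analyticAt_of_differentiable_on_punctured_nhds_of_continuousAt h1
    h3).differentiableAt.differentiableWithinAt

end Pool.Agent.Q140.HYE.TaskRemov
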